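import Mathlib

/-!
# A condition on a group which makes all group algebras over fields semiprimitive

Let `x₁` be in a finite subset `X` of a group `G`. Suppose that there are finite subsets `A`, `S`, `T` with
`A` closed under multiplication, `T` of prime order `q` closed under multiplication, commuting with `A`
elementwise and meeting `A` only in `1`, with `S x₁ = x₁ T` and `x⁻¹ S x ⊆ A` for the other `x ∈ X`.
Then for all `α` with support `X` the ideal generated by `α` contains `(q - ∑ T) ∑ A`.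
-/

set_option autoImplicit false

namespace Pool.Agent.U733.GS

open MonoidAlgebra

universe u v

/-- The data described in the header, in terms of the multiplication only. -/
structure Good {G : Type v} [Mul G] (q : ℕ) (X : Finset G) (x₁ : G) (A S T : Finset G)
    (c : G → G) : Prop where
  cardA : ∃ j : ℕ, A.card = q ^ j
  cardT : T.card = q
  mulA : ∀ a ∈ A, ∀ b ∈ A, a * b ∈ A
  mulT : ∀ a ∈ T, ∀ b ∈ T, a * b ∈ T
  comm : ∀ a ∈ A, ∀ t ∈ T, a * t = t * a
  inter : ∀ t ∈ T, t ∈ A → t * t = t
  inj : ∀ s ∈ S, ∀ s' ∈ S, c s = c s' → s = s'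
  img : ∀ s ∈ S, c s ∈ T
  surj : ∀ t ∈ T, ∃ s ∈ S, c s = t
  conj : ∀ s ∈ S, s * x₁ = x₁ * c s
  other : ∀ x ∈ X, x ≠ x₁ → ∀ s ∈ S, ∃ a ∈ A, s * x = x * a

section

variable {G : Type v} [Group G]

variable {K : Type u} [Field K]

/-- The sum of the elements of a finite set. -/
noncomputable def sm (K : Type u) [Field K] (A : Finset G) : MonoidAlgebra K G :=
  ∑ a ∈ A, MonoidAlgebra.of K G a

theorem of_mul_sm {A : Finset G} (hA : ∀ a ∈ A, ∀ b ∈ A, a * b ∈ A) {a : G} (ha : a ∈ A) :
    MonoidAlgebra.of K G a * sm K A = sm K A := by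
  classical
  unfold sm
  rw [Finset.mul_sum]
  have h : A.image (fun b => a * b) = A := by
    apply Finset.eq_of_subset_of_card_le
    · intro b hb
      obtain ⟨b', hb', rfl⟩ := Finset.mem_image.1 hb
      exact hA a ha b' hb'
    · rw [Finset.card_image_of_injective _ (mul_right_injective a)]
  conv_rhs => rw [← h]
  rw [Finset.sum_image (fun x _ y _ hxy => mul_right_injective a hxy)]
  simp only [map_mul]

theorem sm_mul_sm {A : Finset G} (hA : ∀ a ∈ A, ∀ b ∈ A, a * b ∈ A) :
    sm K A * sm K A = (A.card : K) • sm K A := by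
  conv_lhs => enter [1]; unfold sm
  rw [Finset.sum_mul, Finset.sum_congr rfl (fun a ha => of_mul_sm hA ha), Finset.sum_const,
    ← Nat.cast_smul_eq_nsmul K]

theorem jac_of_mul_eq {R : Type*} [Ring R] {x : R} (hx : x ∈ Ring.jacobson R) {c d : R}
    (hc : x * x = c * x) (hd : d * c = 1) : x = 0 := by
  rw [← Ideal.jacobson_bot, Ideal.mem_jacobson_iff] at hx
  obtain ⟨z, hz⟩ := hx (-d)
  rw [Ideal.mem_bot] at hz
  have h1 : z * (1 - d * x) = 1 := by
    have : z * -d * x + z - 1 = z * (1 - d * x) - 1 := by noncomm_ring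
    rw [this] at hz
    exact sub_eq_zero.1 hz
  have h2 : (1 - d * x) * x = 0 := by
    rw [sub_mul, one_mul, mul_assoc, hc, ← mul_assoc, hd, one_mul, sub_self]
  calc x = z * (1 - d * x) * x := by rw [h1, one_mul]
    _ = z * ((1 - d * x) * x) := by rw [mul_assoc]
    _ = 0 := by rw [h2, mul_zero]

theorem coeff_sm [DecidableEq G] (A : Finset G) (g : G) :
    (sm K A).coeff g = if g ∈ A then 1 else 0 := by
  unfold sm
  simp [MonoidAlgebra.of_apply, Finsupp.single_apply]

theorem coeff_of_mul (g h : G) (x : MonoidAlgebra K G) :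
    (MonoidAlgebra.of K G g * x).coeff h = x.coeff (g⁻¹ * h) := by
  rw [MonoidAlgebra.of_apply]
  rw [MonoidAlgebra.coeff_single_mul_apply, one_mul]

theorem main_alg (hG : ∀ q : ℕ, (q = 2 ∨ q = 3) → ∀ X : Finset G, ∀ x₁ ∈ X,
    ∃ (A S T : Finset G) (c : G → G), Good q X x₁ A S T c) :
    Ring.jacobson (MonoidAlgebra K G) = ⊥ := by
  classical
  rw [eq_bot_iff]
  intro α hα
  by_contra hne
  have hne' : α ≠ 0 := fun h => hne (by rw [h]; exact Submodule.zero_mem _)
  have hsupp : α.coeff.support.Nonempty := by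
    rw [Finsupp.support_nonempty_iff]
    intro h
    exact hne' (MonoidAlgebra.coeff_eq_zero.1 h)
  obtain ⟨x₁, hx₁⟩ := hsupp
  obtain ⟨q, hq, hqK⟩ : ∃ q : ℕ, (q = 2 ∨ q = 3) ∧ (q : K) ≠ 0 := by
    by_cases h2 : (2 : K) = 0
    · refine ⟨3, Or.inr rfl, ?_⟩
      intro h3
      have : (1 : K) = 3 - 2 := by norm_num
      rw [h2, sub_zero] at this
      exact one_ne_zero (this.trans (by exact_mod_cast h3))
    · exact ⟨2, Or.inl rfl, by exact_mod_cast h2⟩
  obtain ⟨A, S, T, c, H⟩ := hG q hq _ x₁ hx₁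
  have hcardS : S.card = q := by
    rw [← H.cardT]
    exact Finset.card_bij (fun s _ => c s) H.img (fun s hs s' hs' h => H.inj s hs s' hs' h)
      (fun t ht => by obtain ⟨s, hs, h⟩ := H.surj t ht; exact ⟨s, hs, h⟩)
  have hAK : (A.card : K) ≠ 0 := by
    obtain ⟨j, hj⟩ := H.cardA
    rw [hj]; push_cast
    exact pow_ne_zero _ hqK
  -- an element of T outside A
  have hTc : 1 < T.card := by rw [H.cardT]; omega
  obtain ⟨t, htT, ht1⟩ := Finset.exists_mem_ne hTc 1
  have htA : t ∉ A := fun h => ht1 (mul_eq_left.1 (H.inter t htT h))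
  set Ah : MonoidAlgebra K G := sm K A with hAh
  set Th : MonoidAlgebra K G := sm K T with hTh
  have key : ∀ x ∈ α.coeff.support, ((q : K) • 1 - sm K S) * MonoidAlgebra.of K G x * Ah =
      if x = x₁ then MonoidAlgebra.of K G x₁ * (((q : K) • 1 - Th) * Ah) else 0 := by
    intro x hx
    split_ifs with hxx
    · subst hxx
      have h1 : sm K S * MonoidAlgebra.of K G x = MonoidAlgebra.of K G x * Th := by
        rw [hTh]
        unfold sm
        rw [Finset.sum_mul, Finset.mul_sum]
        refine Finset.sum_bij (fun s _ => c s) H.img (fun s hs s' hs' h => H.inj s hs s' hs' h)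
          (fun t ht => by obtain ⟨s, hs, h⟩ := H.surj t ht; exact ⟨s, hs, h⟩) ?_
        intro s hs
        rw [← map_mul, ← map_mul, H.conj s hs]
      rw [sub_mul, h1, smul_mul_assoc, one_mul, ← mul_assoc, mul_sub, mul_smul_comm, mul_one]
    · have h1 : ∀ s ∈ S, MonoidAlgebra.of K G s * MonoidAlgebra.of K G x * Ah =
          MonoidAlgebra.of K G x * Ah := by
        intro s hs
        obtain ⟨a, ha, hsa⟩ := H.other x hx hxx s hs
        rw [← map_mul, hsa, map_mul, mul_assoc, hAh, of_mul_sm H.mulA ha]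
      have h2 : sm K S * MonoidAlgebra.of K G x * Ah = (q : K) • (MonoidAlgebra.of K G x * Ah) := by
        conv_lhs => unfold sm
        rw [Finset.sum_mul, Finset.sum_mul, Finset.sum_congr rfl h1, Finset.sum_const, hcardS,
          Nat.cast_smul_eq_nsmul K]
      rw [sub_mul, sub_mul, h2, smul_mul_assoc, smul_mul_assoc, one_mul, sub_self]
  have hsum : α = ∑ x ∈ α.coeff.support, α.coeff x • MonoidAlgebra.of K G x := by
    ext g
    simp only [MonoidAlgebra.coeff_sum, MonoidAlgebra.coeff_smul, MonoidAlgebra.of_apply,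
      MonoidAlgebra.coeff_single, Finsupp.finsetSum_apply, Finsupp.smul_apply,
      Finsupp.single_apply, smul_eq_mul]
    rw [Finset.sum_eq_single g]
    · simp
    · intro b _ hb; simp [hb]
    · intro hg; simpa using hg
  have hprod : ((q : K) • 1 - sm K S) * α * Ah =
      α.coeff x₁ • (MonoidAlgebra.of K G x₁ * (((q : K) • 1 - Th) * Ah)) := by
    conv_lhs => rw [hsum]
    rw [Finset.mul_sum, Finset.sum_mul]
    rw [Finset.sum_eq_single x₁]
    · rw [mul_smul_comm, smul_mul_assoc, key x₁ hx₁, if_pos rfl]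
    · intro x hx hxx
      rw [mul_smul_comm, smul_mul_assoc, key x hx, if_neg hxx, smul_zero]
    · intro h; exact absurd hx₁ h
  set γ : MonoidAlgebra K G := ((q : K) • 1 - Th) * Ah with hγ
  have hγJ : γ ∈ Ring.jacobson (MonoidAlgebra K G) := by
    have h1 : ((q : K) • 1 - sm K S) * α * Ah ∈ Ring.jacobson (MonoidAlgebra K G) :=
      Ideal.mul_mem_right _ _ (Ideal.mul_mem_left _ _ hα)
    rw [hprod] at h1
    have h2 := Ideal.mul_mem_left _ ((α.coeff x₁)⁻¹ • MonoidAlgebra.of K G x₁⁻¹) h1
    have h3 : ((α.coeff x₁)⁻¹ • MonoidAlgebra.of K G x₁⁻¹) *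
        (α.coeff x₁ • (MonoidAlgebra.of K G x₁ * γ)) = γ := by
      rw [smul_mul_smul_comm, inv_mul_cancel₀ (Finsupp.mem_support_iff.1 hx₁), one_smul,
        ← mul_assoc, ← map_mul, inv_mul_cancel, map_one, one_mul]
    rwa [h3] at h2
  have hcomm : Ah * Th = Th * Ah := by
    rw [hAh, hTh]
    unfold sm
    rw [Finset.sum_mul_sum, Finset.sum_mul_sum, Finset.sum_comm]
    refine Finset.sum_congr rfl fun t ht => Finset.sum_congr rfl fun a ha => ?_
    rw [← map_mul, ← map_mul, H.comm a ha t ht]
  have hTT : Th * Th = (q : K) • Th := by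
    rw [hTh, sm_mul_sm H.mulT, H.cardT]
  have hAA : Ah * Ah = (A.card : K) • Ah := by
    rw [hAh, sm_mul_sm H.mulA]
  have hcomm2 : Ah * ((q : K) • 1 - Th) = ((q : K) • 1 - Th) * Ah := by
    rw [mul_sub, sub_mul, hcomm, mul_smul_comm, smul_mul_assoc, mul_one, one_mul]
  have hTT2 : ((q : K) • (1 : MonoidAlgebra K G) - Th) * ((q : K) • 1 - Th) =
      (q : K) • ((q : K) • 1 - Th) := by
    rw [mul_sub, sub_mul, sub_mul, hTT, smul_mul_assoc, smul_mul_assoc, one_mul, one_mul,
      mul_smul_comm, mul_one, smul_sub]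
    abel
  have hsq : γ * γ = (((q : K) * (A.card : K)) • (1 : MonoidAlgebra K G)) * γ := by
    have h1 : γ * γ = (((q : K) • 1 - Th) * ((q : K) • 1 - Th)) * (Ah * Ah) := by
      rw [hγ]
      calc ((q : K) • 1 - Th) * Ah * (((q : K) • 1 - Th) * Ah)
          = ((q : K) • 1 - Th) * (Ah * ((q : K) • 1 - Th)) * Ah := by simp only [mul_assoc]
        _ = _ := by rw [hcomm2]; simp only [mul_assoc]
    rw [h1, hTT2, hAA, smul_mul_smul_comm, smul_mul_assoc, one_mul, hγ]
  have hzero : γ = 0 := by
    refine jac_of_mul_eq hγJ hsq (d := ((q : K) * (A.card : K))⁻¹ • 1) ?_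
    rw [smul_mul_smul_comm, one_mul, inv_mul_cancel₀ (mul_ne_zero hqK hAK), one_smul]
  -- the coefficient at `t`
  have hcoef : γ.coeff t = -1 := by
    rw [hγ, sub_mul, MonoidAlgebra.coeff_sub, Finsupp.sub_apply, smul_mul_assoc, one_mul,
      MonoidAlgebra.coeff_smul, Finsupp.smul_apply, hAh, coeff_sm, if_neg htA, smul_zero, zero_sub]
    congr 1
    rw [hTh]
    conv_lhs => enter [1, 1, 1]; unfold sm
    rw [Finset.sum_mul, MonoidAlgebra.coeff_sum, Finsupp.finsetSum_apply, Finset.sum_eq_single t]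
    · rw [coeff_of_mul, coeff_sm, inv_mul_cancel, if_pos]
      have hTne : ∀ a ∈ A, a * a ∈ A := fun a ha => H.mulA a ha a ha
      -- 1 ∈ A
      have hAne : A.Nonempty := by
        rw [← Finset.card_pos]
        rcases Nat.eq_zero_or_pos A.card with h | h
        · exact absurd (by rw [h]; simp) hAK
        · exact h
      obtain ⟨a, ha⟩ := hAne
      have hsurj : A.image (fun b => a * b) = A := by
        apply Finset.eq_of_subset_of_card_le
        · intro b hb
          obtain ⟨b', hb', rfl⟩ := Finset.mem_image.1 hb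
          exact H.mulA a ha b' hb'
        · rw [Finset.card_image_of_injective _ (mul_right_injective a)]
      rw [← hsurj] at ha
      obtain ⟨b, hb, hab⟩ := Finset.mem_image.1 ha
      rw [mul_eq_left.1 hab] at hb
      exact hb
    · intro t' ht' hne
      rw [coeff_of_mul, coeff_sm, if_neg]
      intro hmem
      have hsurj : T.image (fun b => t' * b) = T := by
        apply Finset.eq_of_subset_of_card_le
        · intro b hb
          obtain ⟨b', hb', rfl⟩ := Finset.mem_image.1 hb
          exact H.mulT t' ht' b' hb'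
        · rw [Finset.card_image_of_injective _ (mul_right_injective t')]
      have ht2 := htT
      rw [← hsurj] at ht2
      obtain ⟨b, hb, hbt⟩ := Finset.mem_image.1 ht2
      have hb' : t'⁻¹ * t = b := by rw [← hbt, inv_mul_cancel_left]
      rw [hb'] at hmem
      have h1 := mul_eq_left.1 (H.inter b hb hmem)
      simp only [h1, mul_one] at hbt
      exact hne hbt
    · intro h; exact absurd htT h
  rw [hzero] at hcoef
  simp at hcoef

end

end Pool.Agent.U733.GS
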