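import Pool.Agent.U733.GS.Alg

/-!
# The restricted wreath product of a cyclic group of prime order with a group
-/

set_option autoImplicit false

namespace Pool.Agent.U733.GS

variable {G : Type} [Group G]

/-- The action of `G` on the finitely supported functions on `G` by left translation. -/
noncomputable def act (q : ℕ) : G →* MulAut (Multiplicative (G →₀ ZMod q)) where
  toFun g := AddEquiv.toMultiplicative (Finsupp.domCongr (Equiv.mulLeft g))
  map_one' := by
    refine MulEquiv.ext fun x => ?_
    apply Multiplicative.toAdd.injective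
    refine Finsupp.ext fun y => ?_
    simp
    rfl
  map_mul' g h := by
    refine MulEquiv.ext fun x => ?_
    apply Multiplicative.toAdd.injective
    refine Finsupp.ext fun y => ?_
    simp
    rfl

theorem act_single (q : ℕ) (g x : G) (k : ZMod q) :
    act q g (Multiplicative.ofAdd (Finsupp.single x k)) =
      Multiplicative.ofAdd (Finsupp.single (g * x) k) := by
  classical
  apply Multiplicative.toAdd.injective
  show Finsupp.domCongr (Equiv.mulLeft g) (Finsupp.single x k) = Finsupp.single (g * x) k
  refine Finsupp.ext fun y => ?_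
  simp [Finsupp.single_apply, eq_inv_mul_iff_mul_eq]

/-- The restricted wreath product. -/
abbrev Wr (G : Type) [Group G] (q : ℕ) : Type :=
  (Multiplicative (G →₀ ZMod q)) ⋊[act (G := G) q] G

instance (q : ℕ) [Countable G] [NeZero q] : Countable (Wr G q) := by
  have : Countable (Multiplicative (G →₀ ZMod q)) := inferInstanceAs (Countable (G →₀ ZMod q))
  exact (SemidirectProduct.equivProd (φ := act (G := G) q)).countable_iff.2 inferInstance

theorem inl_mul_inr (q : ℕ) (x : G) (n : Multiplicative (G →₀ ZMod q)) :
    (SemidirectProduct.inl n : Wr G q) * SemidirectProduct.inr x =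
      SemidirectProduct.inr x * SemidirectProduct.inl (act q x⁻¹ n) := by
  rw [SemidirectProduct.inl_aut, ← mul_assoc, ← mul_assoc]
  simp

/-- The group element of `Wr G q` given by a finitely supported function. -/
noncomputable def em (q : ℕ) : (G →₀ ZMod q) ↪ Wr G q :=
  ⟨fun f => SemidirectProduct.inl (Multiplicative.ofAdd f), fun f g h => by
    have := SemidirectProduct.inl_injective h
    exact Multiplicative.ofAdd.injective this⟩

theorem em_mul (q : ℕ) (f g : G →₀ ZMod q) : em q f * em q g = em q (f + g) := by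
  show SemidirectProduct.inl _ * SemidirectProduct.inl _ = SemidirectProduct.inl _
  rw [← map_mul, ofAdd_add]

theorem em_mul_inr (q : ℕ) (x y : G) (k : ZMod q) :
    em q (Finsupp.single y k) * (SemidirectProduct.inr x : Wr G q) =
      SemidirectProduct.inr x * em q (Finsupp.single (x⁻¹ * y) k) := by
  show SemidirectProduct.inl _ * _ = _ * SemidirectProduct.inl _
  rw [inl_mul_inr, act_single]

theorem good_wr (q : ℕ) [NeZero q] (X : Finset G) (x₁ : G) :
    ∃ (A S T : Finset (Wr G q)) (c : Wr G q → Wr G q),
      Good q (X.map ⟨fun x => (SemidirectProduct.inr x : Wr G q), SemidirectProduct.inr_injective⟩)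
        (SemidirectProduct.inr x₁) A S T c := by
  classical
  set Y : Finset G := (X.erase x₁).image (fun x => x⁻¹) with hY
  refine ⟨(Y.finsupp fun _ => Finset.univ).map (em q),
    Finset.univ.map ⟨fun k : ZMod q => em q (Finsupp.single 1 k),
      (em q).injective.comp (Finsupp.single_injective _)⟩,
    Finset.univ.map ⟨fun k : ZMod q => em q (Finsupp.single x₁⁻¹ k),
      (em q).injective.comp (Finsupp.single_injective _)⟩,
    fun s => (SemidirectProduct.inr x₁)⁻¹ * s * SemidirectProduct.inr x₁, ?_⟩
  have hmemA : ∀ a : Wr G q, a ∈ (Y.finsupp fun _ => (Finset.univ : Finset (ZMod q))).map (em q) ↔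
      ∃ f : G →₀ ZMod q, f.support ⊆ Y ∧ em q f = a := by
    intro a
    rw [Finset.mem_map]
    simp [Finset.mem_finsupp_iff]
  constructor
  · refine ⟨Y.card, ?_⟩
    rw [Finset.card_map, Finset.card_finsupp, Finset.prod_const, Finset.card_univ, ZMod.card]
  · rw [Finset.card_map, Finset.card_univ, ZMod.card]
  · intro a ha b hb
    rw [hmemA] at ha hb ⊢
    obtain ⟨f, hf, rfl⟩ := ha
    obtain ⟨g, hg, rfl⟩ := hb
    exact ⟨f + g, Finsupp.support_add.trans (Finset.union_subset hf hg), (em_mul q f g).symm⟩
  · intro a ha b hb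
    simp only [Finset.mem_map, Finset.mem_univ, true_and, Function.Embedding.coeFn_mk] at ha hb ⊢
    obtain ⟨k, rfl⟩ := ha
    obtain ⟨l, rfl⟩ := hb
    exact ⟨k + l, by rw [em_mul, Finsupp.single_add]⟩
  · intro a ha t ht
    rw [hmemA] at ha
    simp only [Finset.mem_map, Finset.mem_univ, true_and, Function.Embedding.coeFn_mk] at ht
    obtain ⟨f, hf, rfl⟩ := ha
    obtain ⟨l, rfl⟩ := ht
    rw [em_mul, em_mul, add_comm]
  · intro t ht htA
    rw [hmemA] at htA
    simp only [Finset.mem_map, Finset.mem_univ, true_and, Function.Embedding.coeFn_mk] at ht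
    obtain ⟨l, rfl⟩ := ht
    obtain ⟨f, hf, hfl⟩ := htA
    have hfl' : f = Finsupp.single x₁⁻¹ l := (em q).injective hfl
    have hl : l = 0 := by
      by_contra hl
      have h1 : x₁⁻¹ ∈ f.support := by
        rw [hfl', Finsupp.mem_support_iff, Finsupp.single_eq_same]; exact hl
      have h2 := hf h1
      rw [hY] at h2
      simp at h2
    subst hl
    rw [em_mul]
    simp
  · intro s _ s' _ h
    simpa using h
  · intro s hs
    simp only [Finset.mem_map, Finset.mem_univ, true_and, Function.Embedding.coeFn_mk] at hs ⊢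
    obtain ⟨k, rfl⟩ := hs
    refine ⟨k, ?_⟩
    rw [mul_assoc, em_mul_inr, inv_mul_cancel_left, mul_one]
  · intro t ht
    simp only [Finset.mem_map, Finset.mem_univ, true_and, Function.Embedding.coeFn_mk] at ht ⊢
    obtain ⟨k, rfl⟩ := ht
    refine ⟨_, ⟨k, rfl⟩, ?_⟩
    rw [mul_assoc, em_mul_inr, inv_mul_cancel_left, mul_one]
  · intro s _
    simp [mul_assoc]
  · intro x hx hne s hs
    simp only [Finset.mem_map, Finset.mem_univ, true_and, Function.Embedding.coeFn_mk] at hx hs
    obtain ⟨x, hx, rfl⟩ := hx
    obtain ⟨k, rfl⟩ := hs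
    refine ⟨em q (Finsupp.single x⁻¹ k), ?_, by rw [em_mul_inr, mul_one]⟩
    rw [hmemA]
    refine ⟨_, ?_, rfl⟩
    refine Finsupp.support_single_subset.trans ?_
    rw [Finset.singleton_subset_iff, hY, Finset.mem_image]
    refine ⟨x, Finset.mem_erase.2 ⟨?_, hx⟩, rfl⟩
    rintro rfl
    exact hne rfl

end Pool.Agent.U733.GS
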